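import Pool.Agent.W163.P3.CStm

set_option autoImplicit false
open Finset

namespace Pool.Agent.W935.P3.GS

open Pool.Agent.W163.P3 Pool.Agent.W163.P3.Cert

theorem cls_le (x y z : ℕ) : cls x y z ≤ 7 := by
  unfold cls
  split_ifs <;> omega

theorem cj_eq {d e : ℕ} (h : Pr d e) : cj d = e := by
  unfold cj
  rcases h with ⟨rfl, rfl⟩ | ⟨rfl, rfl⟩ | ⟨rfl, rfl⟩ <;> simp

/-- pointwise identity -/
theorem pw {V : Type} (r : V → V → ℕ) (q : V → ℕ) (w z : V) (hw : q w ≤ 7)
    (h : Pr (r w z) (r z w)) :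
    (gn (q w) (q z) (r w z) : ℝ) = 14400 + 10 * (if 4 ≤ q w ∧ q w < 7 then 1 else 0)
      + 4920 * (if 7 ≤ q w then 1 else 0) + 4800 * (fk r q w z : ℝ)
      + 24480 * (if q w < 4 ∧ 4 ≤ q z ∧ q z < 7 ∧ r z w ≠ q z - 4 then 1 else 0)
      + 14400 * (4 * (∑ k ∈ range 4, (if q w = k then 1 else 0) * (if q z = k then 1 else 0))
        - (if q w < 4 then 1 else 0) * (if q z < 4 then 1 else 0)) := by
  have hsum : (∑ k ∈ range 4, (if q w = k then (1 : ℝ) else 0) * (if q z = k then 1 else 0)) =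
      if q w = q z ∧ q w < 4 then 1 else 0 := by
    have : ∀ k ∈ range 4, (if q w = k then (1 : ℝ) else 0) * (if q z = k then 1 else 0) =
        if k = q w then (if q w = q z then 1 else 0) else 0 := by
      intro k _
      by_cases h1 : q w = k
      · subst h1
        by_cases h2 : q w = q z
        · simp [h2]
        · simp [h2, Ne.symm h2]
      · simp [h1, Ne.symm h1]
    rw [Finset.sum_congr rfl this, Finset.sum_ite_eq']
    simp only [Finset.mem_range]
    by_cases h1 : q w < 4 <;> by_cases h2 : q w = q z <;> simp [h1, h2]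
  rw [hsum]
  unfold gn fk
  rw [cj_eq h]
  generalize sd (q w) (q z) = s
  generalize r w z = d
  generalize r z w = e
  generalize q w = k at *
  generalize q z = l at *
  by_cases h1 : k < 4
  · by_cases h2 : l < 4
    · have h4 : ¬ (4 ≤ k) := by omega
      have h5 : ¬ (7 ≤ k) := by omega
      have h6 : ¬ (4 ≤ l) := by omega
      by_cases h3 : k = l
      · subst h3
        simp [h1, h4, h5]
        norm_num
      · by_cases h7 : d = s
        · simp [h1, h2, h3, h4, h5, h6, h7]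
        · simp [h1, h2, h3, h4, h5, h6, h7]
    · have h4 : ¬ (4 ≤ k) := by omega
      have h5 : ¬ (7 ≤ k) := by omega
      have h6 : (4 ≤ l) := by omega
      have h8 : ¬ (k = 7) := by omega
      have h3 : ¬ (k = l) := by omega
      by_cases h9 : l < 7
      · by_cases h10 : e = l - 4
        · simp [h1, h2, h3, h4, h5, h6, h8, h9, h10]
        · simp [h1, h2, h3, h4, h5, h6, h8, h9, h10]
          norm_num
      · simp [h1, h2, h3, h4, h5, h6, h8, h9]
  · have h4 : (4 ≤ k) := by omega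
    by_cases h8 : k = 7
    · subst h8
      simp
      norm_num
    · have h9 : k < 7 := by omega
      have h10 : ¬ (7 ≤ k) := by omega
      simp [h1, h4, h8, h9, h10]
      norm_num

theorem t_GS : S_GS := by
  intro V _ _ r hr a b c
  obtain ⟨q, hq⟩ : ∃ q, q = qr r a b c := ⟨_, rfl⟩
  rw [← hq]
  have hq7 : ∀ w, q w ≤ 7 := by
    intro w
    rw [hq]
    exact cls_le _ _ _
  unfold GS
  rw [← hq]
  push_cast
  rw [Finset.sum_congr rfl fun w _ => Finset.sum_congr rfl fun z _ =>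
    pw r q w z (hq7 w) (hr w z)]
  have e1 : (Fk r q : ℝ) = ∑ w, ∑ z, (fk r q w z : ℝ) := by
    unfold Fk
    push_cast
    rfl
  have e2 : (Fyu r q : ℝ) = ∑ w, ∑ z,
      (if q w < 4 ∧ 4 ≤ q z ∧ q z < 7 ∧ r z w ≠ q z - 4 then (1 : ℝ) else 0) := by
    unfold Fyu
    push_cast
    rfl
  have e3 : ∀ k, ((pt q k).card : ℝ) = ∑ w, (if q w = k then (1 : ℝ) else 0) := by
    intro k
    unfold pt
    rw [Finset.sum_boole]
  have e4 : ((univ.filter (fun w : V => q w < 4)).card : ℝ) =
      ∑ w, (if q w < 4 then (1 : ℝ) else 0) := by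
    rw [Finset.sum_boole]
  have e5 : ((univ.filter (fun w : V => 4 ≤ q w ∧ q w < 7)).card : ℝ) =
      ∑ w, (if 4 ≤ q w ∧ q w < 7 then (1 : ℝ) else 0) := by
    rw [Finset.sum_boole]
  have e6 : ((univ.filter (fun w : V => 7 ≤ q w)).card : ℝ) =
      ∑ w, (if 7 ≤ q w then (1 : ℝ) else 0) := by
    rw [Finset.sum_boole]
  rw [e1, e2, e4, e5, e6]
  simp only [e3]
  have s1 : ∀ (c : ℝ) (f : V → ℝ), ∑ w, ∑ _z : V, c * f w =
      c * (∑ w, f w) * (Fintype.card V : ℝ) := by
    intro c f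
    simp only [Finset.sum_const, Finset.card_univ, nsmul_eq_mul]
    rw [Finset.mul_sum, Finset.sum_mul]
    exact Finset.sum_congr rfl fun w _ => by ring
  have s2 : ∀ (c : ℝ) (f : V → V → ℝ), ∑ w, ∑ z, c * f w z = c * ∑ w, ∑ z, f w z := by
    intro c f
    simp only [Finset.mul_sum]
  have s3 : ∀ (f : ℕ → V → ℝ), ∑ w, ∑ z, ∑ k ∈ range 4, f k w * f k z =
      ∑ k ∈ range 4, (∑ w, f k w) ^ 2 := by
    intro f
    have : ∀ w, ∑ z, ∑ k ∈ range 4, f k w * f k z = ∑ k ∈ range 4, f k w * ∑ z, f k z := by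
      intro w
      rw [Finset.sum_comm]
      exact Finset.sum_congr rfl fun k _ => by rw [Finset.mul_sum]
    rw [Finset.sum_congr rfl fun w _ => this w, Finset.sum_comm]
    exact Finset.sum_congr rfl fun k _ => by rw [← Finset.sum_mul, sq]
  have s4 : ∀ (f : V → ℝ), ∑ w, ∑ z, f w * f z = (∑ w, f w) ^ 2 := by
    intro f
    rw [sq, Finset.sum_mul_sum]
  simp only [Finset.sum_add_distrib]
  rw [s1, s1, s2, s2, s2]
  simp only [Finset.sum_sub_distrib]
  rw [s2, s3, s4]
  simp only [Finset.sum_const, Finset.card_univ, nsmul_eq_mul]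
  ring

end Pool.Agent.W935.P3.GS
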